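import Pool.Agent.Helper72.MK.GoalsT

/-!
# Packet MK-TRI

The area of a triangle.
-/

open MeasureTheory Set

namespace Pool.Agent.Helper85.MK

open Pool.Agent.Helper72.MK

/-- the standard triangle in the product -/
theorem vol_std_prod :
    volume (regionBetween (fun _ : ℝ => (0 : ℝ)) (fun x : ℝ => 1 - x) (Ioo (0 : ℝ) 1)) =
      ENNReal.ofReal (1 / 2) := by
  rw [Measure.volume_eq_prod, volume_regionBetween_eq_integral]
  · congr 1
    rw [← integral_Ioc_eq_integral_Ioo, ← intervalIntegral.integral_of_le zero_le_one]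
    simp only [Pi.sub_apply, sub_zero]
    rw [intervalIntegral.integral_sub (by simp) (by simp)]
    simp
    norm_num
  · exact integrableOn_const (by simp)
  · exact ((continuous_const.sub continuous_id).integrableOn_Icc).mono_set Ioo_subset_Icc_self
  · exact measurableSet_Ioo
  · intro x hx
    simp only [mem_Ioo] at hx
    linarith [hx.2]

/-- the standard triangle -/
theorem vol_std :
    volume {y : Fin 2 → ℝ | 0 < y 0 ∧ 0 < y 1 ∧ y 0 + y 1 < 1} = ENNReal.ofReal (1 / 2) := by
  rw [← vol_std_prod]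
  have hmp := MeasureTheory.volume_preserving_finTwoArrow ℝ
  have hmeas : MeasurableSet
      (regionBetween (fun _ : ℝ => (0 : ℝ)) (fun x : ℝ => 1 - x) (Ioo (0 : ℝ) 1)) :=
    measurableSet_regionBetween measurable_const (measurable_const.sub measurable_id)
      measurableSet_Ioo
  rw [← hmp.measure_preimage hmeas.nullMeasurableSet]
  congr 1
  ext y
  simp only [mem_ofPred_eq, mem_preimage, regionBetween, MeasurableEquiv.finTwoArrow_apply,
    mem_Ioo]
  constructor
  · rintro ⟨h0, h1, h2⟩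
    exact ⟨⟨h0, by linarith⟩, h1, by linarith⟩
  · rintro ⟨⟨h0, _⟩, h1, h2⟩
    exact ⟨h0, h1, by linarith⟩

/-- **Packet MK-TRI.** -/
theorem tri : TRIStmt := by
  intro u w
  let M : Matrix (Fin 2) (Fin 2) ℝ := !![u 0, w 0; u 1, w 1]
  have himg : {x : Fin 2 → ℝ | ∃ s t : ℝ, 0 < s ∧ 0 < t ∧ s + t < 1 ∧ x = s • u + t • w} =
      (Matrix.toLin' M) '' {y : Fin 2 → ℝ | 0 < y 0 ∧ 0 < y 1 ∧ y 0 + y 1 < 1} := by
    have hM : ∀ y : Fin 2 → ℝ, Matrix.toLin' M y = y 0 • u + y 1 • w := by
      intro y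
      ext i
      fin_cases i <;> simp [M, Matrix.toLin'_apply, Matrix.mulVec, dotProduct, Fin.sum_univ_two] <;>
        ring
    ext x
    constructor
    · rintro ⟨s, t, hs, ht, hst, rfl⟩
      exact ⟨![s, t], ⟨by simpa using hs, by simpa using ht, by simpa using hst⟩, by
        rw [hM]; simp⟩
    · rintro ⟨y, ⟨h0, h1, h2⟩, rfl⟩
      exact ⟨y 0, y 1, h0, h1, h2, hM y⟩
  rw [himg, Measure.addHaar_image_linearMap, vol_std, ← ENNReal.ofReal_mul (abs_nonneg _)]
  congr 1
  rw [LinearMap.det_toLin']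
  simp only [M, Matrix.det_fin_two_of]
  rw [show u 0 * w 1 - w 0 * u 1 = u 0 * w 1 - u 1 * w 0 by ring]
  ring

end Pool.Agent.Helper85.MK
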